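import Mathlib
import Pool.Agent.TH841.PM.Fin2

/-!
# One-parameter families of elliptic curves over varying multiquadratic fields, all moments

`W_t : y² = x³ + A(t) x + B(t) = (x - e₁(t)) (x - e₂(t)) (x - e₃(t))` with polynomials `e_i` such
that `e₂ - e₁ = D₀ u₀`, `e₃ - e₁ = D₀ u₁`, `e₂ - e₃ = D₀ u₂`, where `u_k` is a constant times
a product of `n_k` irreducible polynomials, these `n₀ + n₁ + n₂` irreducible polynomials being
pairwise different, and `D₀` is any nonzero polynomial not divisible by one of them; strict triangle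
inequalities `2 n_k < n₀ + n₁ + n₂`. The curve `W_t` is considered over the field
`F_t = ℚ(√D₁(t), ..., √D_r(t))`, for arbitrary nonzero polynomials `D_i` not divisible by one of
these polynomials. Let `ρ t = rank W_t(F_t) + corank of the 2-primary part of Ш(W_t / F_t)`. Outside
of a set `Z` of integers of density zero (uniformly in all intervals `(N, N + M]` with
`|N| ≤ M ^ L`), all the moments of `2 ^ ρ t` over the `t` of such an interval are bounded. So the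
upper density of the `t` with `ρ t ≥ m` decreases faster than `A ^ (-m)` for every `A`.
-/

set_option autoImplicit false

namespace Pool.Agent.Results.MP_e996df_nt.PencilTailsVaryingFields

open Finset Polynomial

open Pool.Agent.TH841.NF.D (HasDiv crk rk)

/-- the curve `y² = x³ + A x + B` over `F` -/
def EF (A B : ℤ) (F : Type) [Field F] : WeierstrassCurve F := ⟨0, 0, 0, (A : F), (B : F)⟩

/-- the number field `F` is generated by square roots of the integers `d i` -/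
def Gen (F : Type) [Field F] [NumberField F] {r : ℕ} (d : Fin r → ℤ) : Prop :=
  ∃ x : Fin r → F, (∀ i, x i ^ 2 = (d i : F)) ∧
    IntermediateField.adjoin ℚ (Set.range x) = ⊤

/-- `u_k = a_k ∏ f_{k,i}` -/
noncomputable def u {n : Fin 3 → ℕ} (a : Fin 3 → ℤ) (f : ∀ k : Fin 3, Fin (n k) → ℤ[X])
    (k : Fin 3) : ℤ[X] := C (a k) * ∏ i, f k i

open Classical in
/-- the proportion of the elements of `Z` in the interval `(N, N + M]` tends to zero as `M` tends to
infinity, uniformly for `|N| ≤ M ^ L`, for every `L` -/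
def DensityZero (Z : Set ℤ) : Prop := ∀ (L : ℕ) (ε : ℝ), 0 < ε → ∃ M₀ : ℕ, ∀ (N : ℤ) (M : ℕ),
  M₀ ≤ M → |N| ≤ (M : ℤ) ^ L → (((Ioc N (N + (M : ℤ))).filter (fun t => t ∈ Z)).card : ℝ) ≤ ε * M

open Classical in
/-- **Theorem.** Let `u_k = a_k ∏_{i < n_k} f_{k,i}`, `k = 0, 1, 2`, be polynomials with integer
coefficients with `u₀ - u₁ = u₂`, where `a_k ≠ 0` and the `n₀ + n₁ + n₂` polynomials `f_{k,i}` are
irreducible of positive degree and pairwise non-associated, let `D₀`, ..., `D_r` be nonzero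
polynomials with integer coefficients not divisible by any `f_{k,i}`, and `A`, `B`, `e₁`, `e₂`, `e₃`
polynomials with integer coefficients such that `x³ + A x + B = (x - e₁) (x - e₂) (x - e₃)`,
`e₂ - e₁ = D₀ u₀` and `e₃ - e₁ = D₀ u₁`. Assume that `2 n_k < n₀ + n₁ + n₂` for `k = 0, 1, 2`. There
is a set `Z` of integers of density zero, uniformly in short intervals, containing the zeros of
`D₀ u₀ u₁ u₂` and the `D_i`, such that for every `k` and `L` there is `C` such that for all integers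
`M ≥ 1` and `|N| ≤ M ^ L`, all fields `F t = ℚ(√D₁(t), ..., √D_r(t))` and the curves
`W t : y² = x³ + A(t) x + B(t)` over `F t`, with `N < t ≤ N + M`, `t` not in `Z`: the corank of the
2-primary part of `Ш(W t / F t)` is finite, and, with
`ρ t = rank W_t(F_t) + corank Ш(W_t / F_t)[2^∞]`, the sum of `2 ^ (k ρ t)` is at most `C M`, and at
most `C M / 2 ^ (k m)` of these `t` have `ρ t ≥ m`. -/
theorem result (n : Fin 3 → ℕ) (r : ℕ) (a : Fin 3 → ℤ) (f : ∀ k : Fin 3, Fin (n k) → ℤ[X])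
    (ha : ∀ k, a k ≠ 0) (hf : ∀ k i, Irreducible (f k i) ∧ 0 < (f k i).natDegree)
    (hf' : ∀ k i l j, (⟨k, i⟩ : Σ k : Fin 3, Fin (n k)) ≠ ⟨l, j⟩ → ¬ Associated (f k i) (f l j))
    (hu : u a f 0 - u a f 1 = u a f 2) (hn : ∀ k, 2 * n k < n 0 + n 1 + n 2)
    (D₀ : ℤ[X]) (hD₀ : D₀ ≠ 0) (hDf₀ : ∀ k i, ¬ f k i ∣ D₀)
    (D : Fin r → ℤ[X]) (hD : ∀ l, D l ≠ 0) (hDf : ∀ l k i, ¬ f k i ∣ D l)
    (A B e₁ e₂ e₃ : ℤ[X])
    (he : ∀ t x : ℤ, x ^ 3 + A.eval t * x + B.eval t =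
      (x - e₁.eval t) * (x - e₂.eval t) * (x - e₃.eval t))
    (h12 : e₂ - e₁ = D₀ * u a f 0) (h13 : e₃ - e₁ = D₀ * u a f 1) :
    ∃ Z : Set ℤ, DensityZero Z ∧ (∀ t, t ∉ Z → (∀ k, (D₀ * u a f k).eval t ≠ 0) ∧
        ∀ i, (D i).eval t ≠ 0) ∧
      ∀ k L : ℕ, ∃ C : ℝ, ∀ (N : ℤ) (M : ℕ), 1 ≤ M → |N| ≤ (M : ℤ) ^ L →
      ∀ (F : ℤ → Type) [∀ t, Field (F t)] [∀ t, NumberField (F t)],
      (∀ t ∈ (Ioc N (N + (M : ℤ))).filter (fun t => t ∉ Z), Gen (F t) (fun i => (D i).eval t)) →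
      ∀ W : ∀ t, WeierstrassCurve (F t), (∀ t, W t = EF (A.eval t) (B.eval t) (F t)) →
      (∀ t ∈ (Ioc N (N + (M : ℤ))).filter (fun t => t ∉ Z), BddAbove {q | HasDiv (W t) q}) ∧
      ∑ t ∈ (Ioc N (N + (M : ℤ))).filter (fun t => t ∉ Z),
        ((2 : ℝ) ^ (rk (W t) + crk (W t))) ^ k ≤ C * M ∧
      ∀ m : ℕ, ((((Ioc N (N + (M : ℤ))).filter (fun t => t ∉ Z)).filter
        (fun t => m ≤ rk (W t) + crk (W t))).card : ℝ) ≤ C * M / 2 ^ (k * m) := by
  have hirr : Pool.Agent.TH841.PT.Irr (Pool.Agent.TH841.TR.fp f) :=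
    ⟨fun x => (hf x.1 x.2).1, fun x => (hf x.1 x.2).2, fun x y hxy => hf' x.1 x.2 y.1 y.2 hxy⟩
  obtain ⟨Z, hZ1, hZ2, hZ3⟩ := Pool.Agent.TH841.PM.penZF Pool.Agent.TH841.PM.tavz a f ha hirr hu hn
    r D₀ hD₀ hDf₀ D hD hDf A B e₁ e₂ e₃ he h12 h13
  refine ⟨Z, hZ1, hZ2, fun k L => ?_⟩
  obtain ⟨C, hC⟩ := hZ3 k L
  exact ⟨C, fun N M hM hN F _ _ hF W hW => hC N M hM hN _ rfl F hF W hW⟩

end Pool.Agent.Results.MP_e996df_nt.PencilTailsVaryingFields
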