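import Mathlib
import Pool.Agent.TH715.RS.Main

/-!
# Tate-Shafarevich groups over random multiquadratic fields of growing degree

`E : y² = x³ + A x + B` is an elliptic curve with three integer roots, `c_1`, ..., `c_r` are
nonzero integers and `Q` is a set of primes of good reduction, at most `y`, with
`|Q| ≥ y ^ (19 / 20)`. For a subset `P` of `Q` with `m` elements (`m` up to a fixed power of
`|Q|`), `F_P = ℚ(√c_1, ..., √c_r, √p : p ∈ P)`, a field of degree at most `2 ^ (r + m)`. The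
number `ρ(P) = rank E(F_P) + corank of the 2-primary part of Ш(E / F_P)` is a sum of `2 ^ (r + m)`
such numbers, for the twists of `E` over the rationals by products of up to `r + m` numbers, and
the 2-Selmer rank of such a twist can grow with `m`. For almost all the sets `P` the number
`ρ(P)` is nevertheless at most a constant times `2 ^ (r + m)`, with exponentially small
exceptional sets, uniformly in the curve up to the number of the bad primes.
-/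

set_option autoImplicit false

namespace Pool.Agent.Results.MP_e996df_nt.RandomMultiquadraticFields

open Finset

open Pool.Agent.TH841.NF.D (HasDiv crk rk)

/-- the curve `y² = x³ + A x + B` over `F` -/
def EF (A B : ℤ) (F : Type) [Field F] : WeierstrassCurve F := ⟨0, 0, 0, (A : F), (B : F)⟩

/-- the number field `F` is generated by square roots of the integers `c i` and of the elements of
`P` -/
def GenP (F : Type) [Field F] [NumberField F] {r : ℕ} (c : Fin r → ℤ) (P : Finset ℕ) : Prop :=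
  ∃ (x : Fin r → F) (z : ℕ → F), (∀ i, x i ^ 2 = (c i : F)) ∧ (∀ p ∈ P, z p ^ 2 = (p : F)) ∧
    IntermediateField.adjoin ℚ (Set.range x ∪ z '' (P : Set ℕ)) = ⊤

/-- the number of the primes that divide `2 (e₂ - e₁) (e₃ - e₁) (e₂ - e₃) c_1 ⋯ c_r` -/
def om (e₁ e₂ e₃ : ℤ) {r : ℕ} (c : Fin r → ℤ) : ℕ :=
  (2 * (e₂ - e₁) * (e₃ - e₁) * (e₂ - e₃) * ∏ i, c i).natAbs.primeFactors.card

open Classical in
/-- **Theorem.** For every real number `K ≥ 0` there are `C` and `D` such that the following holds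
for all elliptic curves `y² = (x - e₁) (x - e₂) (x - e₃) = x³ + A x + B` with integers `e₁`, `e₂`,
`e₃`, all nonzero integers `c_1`, ..., `c_r`, all `m` and `y`, and all sets `Q` of primes at most
`y` that do not divide `2 (e₂ - e₁) (e₃ - e₁) (e₂ - e₃) c_1 ⋯ c_r`, with `|Q| ≥ y ^ (19 / 20)` and
`|Q| ≥ C (m + 1) ^ D`. Let `ω` be the number of the primes dividing the last product,
`F P = ℚ(√c_1, ..., √c_r, √p : p ∈ P)` and `W P` the curve over `F P`, and let `ρ(P)` be the sum of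
the rank of `W P` over `F P` and the corank of `Ш(W P / F P)[2^∞]`. Over the `P ⊆ Q` with `m`
elements, the sum of `2 ^ (K ρ(P) / 2 ^ (r + m))` is at most
`C 2 ^ (K (2 ω + 4)) binom(|Q|, m)`, and for all real `a` at most `C 2 ^ (-K a) binom(|Q|, m)` of
these `P` have `ρ(P) ≥ 2 ^ (r + m) (2 ω + 4 + a)`. -/
theorem result (K : ℝ) (hK : 0 ≤ K) : ∃ (C : ℝ) (D : ℕ),
    ∀ (A B e₁ e₂ e₃ : ℤ), 4 * A ^ 3 + 27 * B ^ 2 ≠ 0 →
    (∀ x : ℤ, x ^ 3 + A * x + B = (x - e₁) * (x - e₂) * (x - e₃)) →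
    ∀ (r : ℕ) (c : Fin r → ℤ), (∀ i, c i ≠ 0) → ∀ (m y : ℕ) (Q : Finset ℕ),
    (∀ q ∈ Q, q.Prime ∧ q ≤ y ∧
      ¬ (q : ℤ) ∣ 2 * (e₂ - e₁) * (e₃ - e₁) * (e₂ - e₃) * ∏ i, c i) →
    (y : ℝ) ^ (19 / 20 : ℝ) ≤ Q.card → C * ((m : ℝ) + 1) ^ D ≤ Q.card →
    ∀ (F : Finset ℕ → Type) [∀ P, Field (F P)] [∀ P, NumberField (F P)],
    (∀ P ∈ Q.powersetCard m, GenP (F P) c P) →
    ∀ W : ∀ P, WeierstrassCurve (F P), (∀ P, W P = EF A B (F P)) →
    (∀ P ∈ Q.powersetCard m, BddAbove {q | HasDiv (W P) q}) ∧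
    ∑ P ∈ Q.powersetCard m, (2 : ℝ) ^ (K * ((rk (W P) + crk (W P) : ℕ) : ℝ) / 2 ^ (r + m)) ≤
      C * 2 ^ (K * (2 * om e₁ e₂ e₃ c + 4)) * (Q.card.choose m : ℝ) ∧
    ∀ a : ℝ, (((Q.powersetCard m).filter (fun P =>
      2 ^ (r + m) * (2 * (om e₁ e₂ e₃ c : ℝ) + 4 + a) ≤
        ((rk (W P) + crk (W P) : ℕ) : ℝ))).card : ℝ) ≤
      C * 2 ^ (-(K * a)) * (Q.card.choose m : ℝ) := by
  obtain ⟨C, D, hC, h⟩ := Pool.Agent.TH715.RS.main K hK
  refine ⟨C, D, ?_⟩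
  intro A B e₁ e₂ e₃ hE he r c hc m y Q hQ hyQ hmQ F _ _ hF W hW
  obtain ⟨h1, h2, -⟩ := h A B e₁ e₂ e₃ hE he r c hc m y Q hQ hyQ hmQ F hF W hW
  have hom : Pool.Agent.TH715.RS.om e₁ e₂ e₃ c = om e₁ e₂ e₃ c := rfl
  rw [hom] at h2
  have h4 : (4 : ℝ) ^ (K * ((om e₁ e₂ e₃ c : ℝ) + 2)) = 2 ^ (K * (2 * (om e₁ e₂ e₃ c : ℝ) + 4)) := by
    have h5 : (4 : ℝ) = 2 ^ (2 : ℝ) := by
      rw [Real.rpow_two]
      norm_num
    rw [h5, ← Real.rpow_mul (by norm_num)]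
    congr 1
    ring
  rw [h4] at h2
  have h5 : ∀ P, ((2 : ℝ) ^ (rk (W P) + crk (W P))) ^ (K / 2 ^ (r + m)) =
      (2 : ℝ) ^ (K * ((rk (W P) + crk (W P) : ℕ) : ℝ) / 2 ^ (r + m)) := by
    intro P
    rw [← Real.rpow_natCast, ← Real.rpow_mul (by norm_num)]
    congr 1
    ring
  rw [sum_congr rfl fun P _ => h5 P] at h2
  refine ⟨h1, h2, fun a => ?_⟩
  have hpos : (0 : ℝ) < 2 ^ (K * (2 * (om e₁ e₂ e₃ c : ℝ) + 4 + a)) := by positivity
  have h6 : (((Q.powersetCard m).filter (fun P =>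
      2 ^ (r + m) * (2 * (om e₁ e₂ e₃ c : ℝ) + 4 + a) ≤
        ((rk (W P) + crk (W P) : ℕ) : ℝ))).card : ℝ) *
      2 ^ (K * (2 * (om e₁ e₂ e₃ c : ℝ) + 4 + a)) ≤
      C * 2 ^ (K * (2 * (om e₁ e₂ e₃ c : ℝ) + 4)) * (Q.card.choose m : ℝ) := by
    refine le_trans ?_ h2
    refine le_trans ?_ (sum_le_sum_of_subset_of_nonneg
      (filter_subset (fun P => 2 ^ (r + m) * (2 * (om e₁ e₂ e₃ c : ℝ) + 4 + a) ≤
        ((rk (W P) + crk (W P) : ℕ) : ℝ)) (Q.powersetCard m)) (fun P _ _ => by positivity))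
    rw [← nsmul_eq_mul]
    refine card_nsmul_le_sum _ _ _ fun P hP => ?_
    refine Real.rpow_le_rpow_of_exponent_le (by norm_num) ?_
    rw [le_div_iff₀ (by positivity)]
    have h7 := mul_le_mul_of_nonneg_left (mem_filter.1 hP).2 hK
    calc _ = K * (2 ^ (r + m) * (2 * (om e₁ e₂ e₃ c : ℝ) + 4 + a)) := by ring
      _ ≤ _ := h7
  rw [← le_div_iff₀ hpos] at h6
  refine h6.trans (le_of_eq ?_)
  have h8 : (2 : ℝ) ^ (K * (2 * (om e₁ e₂ e₃ c : ℝ) + 4 + a)) =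
      2 ^ (K * (2 * (om e₁ e₂ e₃ c : ℝ) + 4)) * 2 ^ (K * a) := by
    rw [← Real.rpow_add (by norm_num)]
    congr 1
    ring
  have h9 : (0 : ℝ) < 2 ^ (K * (2 * (om e₁ e₂ e₃ c : ℝ) + 4)) := by positivity
  have h10 : (0 : ℝ) < 2 ^ (K * a) := by positivity
  rw [h8, Real.rpow_neg (by norm_num)]
  field_simp

end Pool.Agent.Results.MP_e996df_nt.RandomMultiquadraticFields
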