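import Pool.Agent.TH936.PU.Fin
import Pool.Agent.W287.HK.Basic
import Pool.Agent.W571.HK.Cls
import Pool.Agent.W53.HK.Fp
import Pool.Agent.W366.HK.Fpr
import Pool.Agent.W585.HK.LAT
import Pool.Agent.W692.HK.Ker
import Pool.Agent.W584.HK.CNT
import Pool.Agent.W856.HK.Dec
import Pool.Agent.W636.HK.Gauss
import Pool.Agent.W348.HK.Pois
import Pool.Agent.W29.HK.Prod

/-!
# Central values modulo `p` over the ray class fields of prime conductor, complex multiplication

`R` is the ring of integers of an imaginary quadratic field `K` of class number one, `ψ` a primitive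
Hecke character of `K` of conductor `f` and infinity type `(1, 0)`.  Let `p` be an odd prime not
dividing `N(f)`, `v` a valuation of `ℂ` above `p` and `y² = 4 x³ - g₂ x - g₃` an equation with
`v`-integral coefficients and good reduction at `v` whose period lattice is `Ω R`.  Then for every
prime ideal `c`, prime to `f`, of large norm with `p` prime to `N(c) (N(c) - 1)`, the numbers
`conj L(ψ χ, 1) / Ω` are `v`-integral for all primitive ray class characters `χ` of conductor `c`, and
`v`-adic units for at least `κ √N(c)` of them; `κ` does not depend on `p`.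

If `E` is an elliptic curve over `K` with complex multiplication by `R` and Hecke character `ψ` and
`χ` is one of the characters with unit value, then `L(ψ χ, 1)` does not vanish, and by Rubin's theorem
on the main conjecture (not proved here) the corresponding parts of the `p`-primary part of the
Selmer group over the ray class field `K(c)` vanish, as the `p`-part of the conjecture of Birch and
Swinnerton-Dyer predicts.

The proof: `conj L(ψ χ, 1) / Ω` is, up to units, `∑ χ(x) H(x)` with a sum `H` of quotients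
`℘'(s) / (℘(s) - ℘(Ω x / c))` over points `s` of order `f`.  The functions `x ↦ H(a x)`, for
`a ≡ 1 mod f` prime to `p` of norm at most a constant times `√N(c)`, are linearly independent modulo
the maximal ideal, by partial fractions in `℘(Ω x / c)`: different torsion points of order prime to `p`
have different reductions.  Fourier inversion then gives the bound.  All this is in
`Pool.Agent.TH936.PU`.
-/

set_option autoImplicit false

open Complex

namespace Pool.Agent.Results.MP_e996df_nt.UnitValuesModP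

/-- The norm `N(I)` of an ideal (`0` for the zero ideal, whose residue ring is infinite). -/
noncomputable def norm {R : Subring ℂ} (I : Ideal R) : ℝ := (Nat.card (R ⧸ I) : ℝ)

/-- `ψ`, a function on the ideals of `R`, is a primitive Hecke character of conductor `f` and infinity
type `(n, 0)`: it is multiplicative, vanishes exactly at the zero ideal and the ideals not prime to
`f`, satisfies `ψ((α)) = α ^ n` for `α ≡ 1 mod f`, and this fails for every strictly larger ideal `f'`
in place of `f`.  For `n = 0` these are the primitive ray class characters of conductor `f`. -/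
structure IsHecke {R : Subring ℂ} (n : ℕ) (f : Ideal R) (ψ : Ideal R → ℂ) : Prop where
  ne_bot : f ≠ ⊥
  mul : ∀ I J : Ideal R, ψ (I * J) = ψ I * ψ J
  eq_zero : ∀ I : Ideal R, ψ I = 0 ↔ (I = ⊥ ∨ ¬ IsCoprime I f)
  principal : ∀ α : R, α ≠ 0 → α - 1 ∈ f → ψ (Ideal.span {α}) = (α : ℂ) ^ n
  primitive : ∀ f' : Ideal R, f < f' → ∃ α : R, α ≠ 0 ∧ α - 1 ∈ f' ∧ IsCoprime (Ideal.span {α}) f ∧
    ψ (Ideal.span {α}) ≠ (α : ℂ) ^ n

theorem isHecke_iff {R : Subring ℂ} (n : ℕ) (f : Ideal R) (ψ : Ideal R → ℂ) :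
    IsHecke n f ψ ↔ Pool.Agent.W192.HK.HC n f ψ :=
  ⟨fun h => ⟨h.ne_bot, h.mul, h.eq_zero, h.principal, h.primitive⟩,
    fun h => ⟨h.ne, h.mul, h.zero, h.princ, h.prim⟩⟩

/-- **Main theorem.** Let `R = ℤ + ℤ ω` be a subring of `ℂ` that is a lattice and a principal ideal
ring and `ψ` a primitive Hecke character of conductor `f` and infinity type `(1, 0)` on the ideals of
`R`.  There are functions `L χ` such that for every primitive ray class character `χ` of conductor
prime to `f` the function `L χ` is entire and is `∑ ψ(I) χ(I) N(I)^(-s)` for `Re s > 3/2`, and there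
are `κ > 0` and `N₀` with the following property.  Let `p` be an odd prime not dividing `N(f)`, `v` a
valuation of `ℂ` with `v(p) < 1`, and let `Ω R`, `Ω ≠ 0`, be a lattice with invariants `g₂`, `g₃` such
that `v(g₂) ≤ 1`, `v(g₃) ≤ 1`, `v(g₂³ - 27 g₃²) = 1`.  Then for every maximal ideal `c` prime to `f`
with `N(c) ≥ N₀` such that `p` does not divide the orders of `R/c` and `(R/c)ˣ`:
`v(conj (L χ 1) / Ω) ≤ 1` for all primitive ray class characters `χ` of conductor `c`, and
`v(conj (L χ 1) / Ω) = 1` for at least `κ √N(c)` of them. -/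
theorem result (R : Subring ℂ) (ω : ℂ) (hω : 0 < ω.im)
    (hR : ∀ z : ℂ, z ∈ R ↔ ∃ x y : ℤ, z = x + y * ω) (hpid : IsPrincipalIdealRing R)
    (f : Ideal R) (ψ : Ideal R → ℂ) (hψ : IsHecke 1 f ψ) :
    ∃ L : (Ideal R → ℂ) → ℂ → ℂ,
      (∀ (c : Ideal R) (χ : Ideal R → ℂ), IsCoprime f c → IsHecke 0 c χ →
        Differentiable ℂ (L χ) ∧ ∀ s : ℂ, 3 / 2 < s.re →
          HasSum (fun I : Ideal R => ψ I * χ I * (norm I : ℂ) ^ (-s)) (L χ s)) ∧
      ∃ κ N₀ : ℝ, 0 < κ ∧ ∀ p : ℕ, p.Prime → p ≠ 2 → ¬ p ∣ Nat.card (R ⧸ f) →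
        ∀ (Γ : Type) [LinearOrderedCommGroupWithZero Γ] (v : Valuation ℂ Γ), v (p : ℂ) < 1 →
        ∀ (P : PeriodPair) (Ω : ℂ), Ω ≠ 0 → (∀ z : ℂ, z ∈ P.lattice ↔ ∃ r : R, z = Ω * r) →
          v P.g₂ ≤ 1 → v P.g₃ ≤ 1 → v (P.g₂ ^ 3 - 27 * P.g₃ ^ 2) = 1 →
        ∀ c : Ideal R, c.IsMaximal → IsCoprime f c → N₀ ≤ norm c →
          ¬ p ∣ Nat.card (R ⧸ c) → ¬ p ∣ Nat.card (R ⧸ c)ˣ →
          (∀ χ : Ideal R → ℂ, IsHecke 0 c χ → v ((starRingEnd ℂ) (L χ 1) / Ω) ≤ 1) ∧
          ∃ S : Finset (Ideal R → ℂ), κ * √(norm c) ≤ S.card ∧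
            ∀ χ ∈ S, IsHecke 0 c χ ∧ v ((starRingEnd ℂ) (L χ 1) / Ω) = 1 := by
  classical
  have hbasic := Pool.Agent.W287.HK.h_basic
  have hcls := Pool.Agent.W571.HK.h_cls hbasic
  have hfp := Pool.Agent.W53.HK.h_fp hbasic hcls
  have hfpr := Pool.Agent.W366.HK.h_fpr hbasic hcls
  have hlat := Pool.Agent.W585.HK.h_lat hbasic
  have hker := Pool.Agent.W692.HK.h_ker hbasic hcls hfpr
  have hcnt := Pool.Agent.W584.HK.h_cnt hbasic hcls hfpr hlat hker
  have hdec := Pool.Agent.W856.HK.h_dec hbasic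
  have hgauss := Pool.Agent.W636.HK.h_gauss hbasic hfp
  have hpois := Pool.Agent.W348.HK.h_pois hbasic
  have htheta := Pool.Agent.TH936.HK.h_theta hbasic hfp hdec hgauss hpois hcnt
  have hafe := Pool.Agent.TH936.HK.h_afe hbasic hfp hcnt hgauss htheta
  have hprod := Pool.Agent.W29.HK.h_prod hbasic hfp
  have hded : IsDedekindDomain R := inferInstance
  have hQ : Pool.Agent.W192.HK.QR R ω := ⟨hω, hR, hded⟩
  obtain ⟨f0, rfl⟩ : ∃ f0 : R, f = Ideal.span {f0} :=
    ⟨_, (Submodule.IsPrincipal.span_singleton_generator f).symm⟩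
  have hψ' : Pool.Agent.W192.HK.HC 1 (Pool.Agent.W192.HK.sp f0) ψ := (isHecke_iff _ _ _).1 hψ
  obtain ⟨L, h1, κ, N0, hκ, h2⟩ := Pool.Agent.TH936.PU.main hbasic hfp hcnt hdec hafe hprod hQ hψ'
  refine ⟨L, fun c χ hc hχ => h1 c χ hc ((isHecke_iff _ _ _).1 hχ), κ, N0, hκ, ?_⟩
  intro p hp hp2 hpf Γ _ v hvp P Ω hΩ hP hg2 hg3 hd c hcm hc hN hpc hpc1
  obtain ⟨g1, S, hS1, hS2⟩ := h2 p hp hp2 hpf Γ v hvp P Ω ⟨hΩ, hP⟩ hg2 hg3 hd c hcm hc hN hpc hpc1
  exact ⟨fun χ hχ => g1 χ ((isHecke_iff _ _ _).1 hχ), S, hS1, fun χ hχ =>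
    ⟨(isHecke_iff _ _ _).2 (hS2 χ hχ).1, (hS2 χ hχ).2⟩⟩

end Pool.Agent.Results.MP_e996df_nt.UnitValuesModP
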